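import Mathlib
import Pool.Agent.H16.HG.Main
import Pool.Agent.H16.HG.G5
import Pool.Agent.H16.HG.G6
import Pool.Agent.H36.HG.LB

set_option autoImplicit false

/-!
# Hager's conjecture `π(t,k) = k(t-1)` for `t = 5` and `t = 6`

`π(t,k)` is the least `c` such that in every `c`-connected graph every set of `t` vertices has `k`
internally disjoint paths through it.
-/

namespace Pool.Agent.Results.MP_96ef52_co.FiveSixTerminals

/-- `G` is `c`-connected: it has more than `c` vertices and stays connected when fewer than `c`
vertices are deleted. -/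
def IsConn {V : Type} (c : ℕ) (G : SimpleGraph V) : Prop :=
  c + 1 ≤ Nat.card V ∧ ∀ X : Finset V, X.card < c → (G.induce ((↑X : Set V)ᶜ)).Connected

/-- `G` is `(t,k)`-path-connected: for every set `A` of `t` vertices there are `k` paths of `G`, each of them
containing all vertices of `A`, any two of which share no edge and no vertex outside `A`. -/
def IsPathConn {V : Type} (t k : ℕ) (G : SimpleGraph V) : Prop :=
  max t (k + 1) ≤ Nat.card V ∧
    ∀ A : Finset V, A.card = t →
      ∃ (a b : Fin k → V) (P : (i : Fin k) → G.Walk (a i) (b i)),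
        (∀ i, (P i).IsPath ∧ ∀ x ∈ A, x ∈ (P i).support) ∧
        (∀ i j, i ≠ j →
          (∀ x, x ∈ (P i).support → x ∈ (P j).support → x ∈ A) ∧
          (∀ e, e ∈ (P i).edges → e ∉ (P j).edges))

/-- For `t = 5` and `t = 6` and all `k ≥ 2`, the number `k(t-1)` is the least `c` such that every finite
`c`-connected graph is `(t,k)`-path-connected, that is `π(t,k) = k(t-1)`. -/
theorem result : ∀ t k : ℕ, (t = 5 ∨ t = 6) → 2 ≤ k →
    IsLeast {c : ℕ | ∀ (V : Type) (G : SimpleGraph V), Finite V → IsConn c G → IsPathConn t k G}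
      (k * (t - 1)) := by
  intro t k ht hk
  constructor
  · rcases ht with rfl | rfl
    · exact HG.pathSys_of_gameE 5 k (by norm_num) (by omega) (HG.G5_proved k (by omega))
    · exact HG.pathSys_of_gameE 6 k (by norm_num) (by omega) (HG.G6_proved k (by omega))
  · intro c hc
    by_contra hlt
    push Not at hlt
    obtain ⟨V, G, hV, ⟨hcard, hconn⟩, hnot⟩ := HG.LB_proved t k (by omega) hk
    apply hnot
    have h1 : t - 1 ≤ k * (t - 1) := Nat.le_mul_of_pos_left _ (by omega)
    exact hc V G hV ⟨by omega, fun X hX => hconn X (by omega)⟩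

end Pool.Agent.Results.MP_96ef52_co.FiveSixTerminals
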